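import Pool.Agent.URW.Geo.Vert

/-!
# URW package Geo/Cpt: finite complexes have compact realization

PROOF. `K.real` is a compact subset of `U → ℝ` (`U` finite): it is the union over the finitely many
`s ∈ K.faces` of the closed sets `{c | (∀ v ∈ s, 0 ≤ c v) ∧ (∀ v ∉ s, c v = 0) ∧ ∑ v ∈ s, c v = 1}`,
which lie in the compact cube `Set.pi univ fun _ => Icc 0 1`. The identity map from the subtype
`K.real` with the topology of `U → ℝ` to `Pt K` with the metric topology is continuous, since
`dist p q ≤ 2 hd p q` when `hd p q < 1` (`dist_le_two_hd`) and `hd` is continuous in the coordinates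
(`U` finite: `finsum` is `Finset.sum univ`). It is surjective, so `Pt K` is compact
(`Function.Surjective.compactSpace` or image of a compact set).
-/

set_option autoImplicit false

open Set UW1

namespace URW

universe u

variable {U : Type u} {K : Complex U} [hK : Fact (Nice K)]

omit hK in
private theorem compact_real [Finite U] : IsCompact K.real := by
  classical
  have e : K.real = ⋃ s : {s : Finset U // s ∈ K.faces},
      {c : U → ℝ | (∀ v ∈ s.1, 0 ≤ c v) ∧ (∀ v, v ∉ s.1 → c v = 0) ∧ ∑ v ∈ s.1, c v = 1} := by
    ext c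
    rw [mem_iUnion]
    exact ⟨fun ⟨s, hs, h⟩ => ⟨⟨s, hs⟩, h⟩, fun ⟨⟨s, hs⟩, h⟩ => ⟨s, hs, h⟩⟩
  rw [e]
  refine isCompact_iUnion fun s => ?_
  refine (isCompact_univ_pi fun _ : U => isCompact_Icc (a := (0 : ℝ)) (b := 1)).of_isClosed_subset
    ?_ ?_
  · have h1 : IsClosed {c : U → ℝ | ∀ v ∈ s.1, 0 ≤ c v} := by
      have : {c : U → ℝ | ∀ v ∈ s.1, 0 ≤ c v} = ⋂ v ∈ s.1, {c : U → ℝ | 0 ≤ c v} := by
        ext c
        simp
      rw [this]
      exact isClosed_biInter fun v _ => isClosed_le continuous_const (continuous_apply v)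
    have h2 : IsClosed {c : U → ℝ | ∀ v, v ∉ s.1 → c v = 0} := by
      have : {c : U → ℝ | ∀ v, v ∉ s.1 → c v = 0} = ⋂ v, ⋂ (_ : v ∉ s.1), {c : U → ℝ | c v = 0} := by
        ext c
        simp
      rw [this]
      exact isClosed_iInter fun v => isClosed_iInter fun _ =>
        isClosed_eq (continuous_apply v) continuous_const
    have h3 : IsClosed {c : U → ℝ | ∑ v ∈ s.1, c v = 1} :=
      isClosed_eq (continuous_finsetSum _ fun v _ => continuous_apply v) continuous_const
    exact h1.inter (h2.inter h3)
  · intro c hc v _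
    by_cases hv : v ∈ s.1
    · exact ⟨hc.1 v hv, (Finset.single_le_sum hc.1 hv).trans hc.2.2.le⟩
    · rw [hc.2.1 v hv]
      exact ⟨le_rfl, zero_le_one⟩

private def toPt (K : Complex U) : K.real → Pt K := fun c => ⟨c.1, c.2⟩

theorem compact_pt [Finite U] : CompactSpace (Pt K) := by
  classical
  have : Fintype U := Fintype.ofFinite U
  have h0 : CompactSpace K.real := isCompact_iff_compactSpace.1 compact_real
  have h2 : Continuous (toPt K) := by
    rw [continuous_iff_continuousAt]
    intro c
    have hcont : Continuous (fun q : K.real => hd q.1 c.1) := by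
      unfold hd
      simp only [finsum_eq_sum_of_fintype]
      exact continuous_const.mul (continuous_finsetSum _ fun v _ =>
        (((continuous_apply v).comp continuous_subtype_val).sub continuous_const).abs)
    have h3 : Filter.Tendsto (fun q : K.real => hd q.1 c.1) (nhds c) (nhds 0) := by
      have := hcont.tendsto c
      rwa [hd_self] at this
    have h4 : Filter.Tendsto (fun q : K.real => 2 * hd q.1 c.1) (nhds c) (nhds 0) := by
      have := h3.const_mul 2
      rwa [mul_zero] at this
    rw [ContinuousAt, tendsto_iff_dist_tendsto_zero]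
    refine squeeze_zero' (Filter.Eventually.of_forall fun _ => dist_nonneg) ?_ h4
    filter_upwards [h3.eventually (gt_mem_nhds zero_lt_one)] with q hq
    exact dist_le_two_hd (toPt K q) (toPt K c) hq
  have h5 : Function.Surjective (toPt K) := fun p => ⟨⟨p.1, p.2⟩, rfl⟩
  exact ⟨by rw [← h5.range_eq]; exact isCompact_range h2⟩

end URW
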