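import Pool.Agent.UW1.Local

/-!
# Polyhedral length metrics on realizations of simplicial complexes: definitions

`Pt K` is the realization (barycentric coordinates) of the complex `K`; `hd` is half of the
`ℓ¹`-distance; a chain is a polygonal path all of whose segments lie in simplices; the distance
of two points is the infimum of the lengths of chains. All edges have length `1`.
-/

set_option autoImplicit false

open Set UW1

namespace URW

universe u

/-- Points of the realization of `K`. -/
def Pt {U : Type u} (K : Complex U) : Type u := {c : U → ℝ // c ∈ K.real}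

/-- Half of the `ℓ¹`-distance of two finitely supported functions. -/
noncomputable def hd {U : Type u} (p q : U → ℝ) : ℝ := (1 / 2) * ∑ᶠ v, |p v - q v|

/-- `p` and `q` lie in a common simplex of `K`. -/
def Cs {U : Type u} (K : Complex U) (p q : Pt K) : Prop :=
  ∃ s ∈ K.faces, ∀ v, v ∉ s → p.1 v = 0 ∧ q.1 v = 0

/-- `Ch K p q ℓ`: there is a chain of segments, each in a simplex, from `p` to `q` of total
length `ℓ`. -/
inductive Ch {U : Type u} (K : Complex U) : Pt K → Pt K → ℝ → Prop
  | nil (p : Pt K) : Ch K p p 0
  | cons {p q r : Pt K} {ℓ : ℝ} : Cs K p q → Ch K q r ℓ → Ch K p r (hd p.1 q.1 + ℓ)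

/-- Two vertices in a common simplex. -/
def Ed {U : Type u} (K : Complex U) (a b : U) : Prop := ∃ s ∈ K.faces, a ∈ s ∧ b ∈ s

/-- Connected, locally finite complexes all of whose vertices are simplices. -/
structure Nice {U : Type u} (K : Complex U) : Prop where
  vert : ∀ v, {v} ∈ K.faces
  conn : ∀ u v, Relation.ReflTransGen (Ed K) u v
  locfin : ∀ v, {s | s ∈ K.faces ∧ v ∈ s}.Finite

open Classical in
/-- The vertex `v` as a point. -/
noncomputable def vx {U : Type u} {K : Complex U} (hK : Nice K) (v : U) : Pt K :=
  ⟨fun w => if w = v then 1 else 0, {v}, hK.vert v, by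
    intro w hw
    rw [Finset.mem_singleton] at hw
    simp [hw], by
    intro w hw
    rw [Finset.mem_singleton] at hw
    simp [hw], by simp⟩

/-- `Rn K n u v`: there is an edge walk with `n` steps from `u` to `v`. -/
def Rn {U : Type u} (K : Complex U) : ℕ → U → U → Prop
  | 0, u, v => u = v
  | n + 1, u, v => ∃ w, Ed K u w ∧ Rn K n w v

/-- The length distance. -/
noncomputable def gdist {U : Type u} (K : Complex U) (p q : Pt K) : ℝ :=
  sInf {ℓ | Ch K p q ℓ}

end URW
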