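import Pool.Agent.URW.Geo.Min

/-!
# URW package Geo/Geod: the realization is a geodesic space

PROOF. (a) `isGeod_trans`: if `γ₁` is a geodesic of length `ℓ₁` from `a` to `b`, `γ₂` one of length
`ℓ₂` from `b` to `c` and `dist a c = ℓ₁ + ℓ₂`, then the concatenation
(`t ↦ if t ≤ ℓ₁ then γ₁ t else γ₂ (t - ℓ₁)`) is a geodesic of length `ℓ₁ + ℓ₂`: for
`s ≤ ℓ₁ ≤ t` the distance is `≤ (ℓ₁ - s) + (t - ℓ₁)` and `≥ dist a c - s - (ℓ₁ + ℓ₂ - t)`.
(b) One segment: for `Cs K p q`, `h = hd p q > 0`, the path `t ↦ lin p q (t / h)` (extended by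
clamping `t / h` to `[0, 1]`, so that it is a point by `lin_mem`) is a geodesic of length `h`: two
of its points are `Cs` (same simplex), so their distance is `hd` (`dist_eq_hd`) `= |s - t|`
(`hd_lin`). If `h = 0` then `p = q` and the constant path will do.
(c) For a chain of length `ℓ` from `p` to `q` with `dist p q = ℓ` there is a geodesic of length `ℓ`
from `p` to `q`: induction on the chain; in the step `p → q' → r` one has
`hd p q' + ℓ' = dist p r ≤ dist p q' + dist q' r ≤ hd p q' + ℓ'`, so `dist q' r = ℓ'` and (a), (b)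
apply. With `exists_min_chain` this proves the theorem.
-/

set_option autoImplicit false

open Set UW1

namespace URW

universe u

variable {U : Type u} {K : Complex U} [hK : Fact (Nice K)]

theorem isGeod_trans {X : Type*} [MetricSpace X] {γ₁ γ₂ : ℝ → X} {ℓ₁ ℓ₂ : ℝ} {a b c : X}
    (h₁ : IsGeod γ₁ ℓ₁ a b) (h₂ : IsGeod γ₂ ℓ₂ b c) (h : dist a c = ℓ₁ + ℓ₂) :
    ∃ γ, IsGeod γ (ℓ₁ + ℓ₂) a c := by
  have e1 := h₁.nonneg
  have e2 := h₂.nonneg
  have key : ∀ s ∈ Icc 0 (ℓ₁ + ℓ₂), ∀ t ∈ Icc 0 (ℓ₁ + ℓ₂), s ≤ t →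
      dist (if s ≤ ℓ₁ then γ₁ s else γ₂ (s - ℓ₁)) (if t ≤ ℓ₁ then γ₁ t else γ₂ (t - ℓ₁)) =
        |s - t| := by
    intro s hs t ht hst
    by_cases h3 : t ≤ ℓ₁
    · rw [if_pos h3, if_pos (hst.trans h3)]
      exact h₁.isom s ⟨hs.1, hst.trans h3⟩ t ⟨ht.1, h3⟩
    · have h3' := not_le.1 h3
      by_cases h4 : s ≤ ℓ₁
      · rw [if_neg h3, if_pos h4]
        have a1 := h₁.isom s ⟨hs.1, h4⟩ ℓ₁ ⟨e1, le_rfl⟩
        have a2 := h₂.isom 0 ⟨le_rfl, e2⟩ (t - ℓ₁) ⟨by linarith, by linarith [ht.2]⟩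
        have a3 := h₁.isom 0 ⟨le_rfl, e1⟩ s ⟨hs.1, h4⟩
        have a4 := h₂.isom (t - ℓ₁) ⟨by linarith, by linarith [ht.2]⟩ ℓ₂ ⟨e2, le_rfl⟩
        rw [h₁.finish, abs_sub_comm, abs_of_nonneg (by linarith)] at a1
        rw [h₂.start, abs_sub_comm, abs_of_nonneg (by linarith)] at a2
        rw [h₁.start, abs_sub_comm, abs_of_nonneg (by linarith [hs.1])] at a3
        rw [h₂.finish, abs_sub_comm, abs_of_nonneg (by linarith [ht.2])] at a4
        have b1 := dist_triangle (γ₁ s) b (γ₂ (t - ℓ₁))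
        have b2 := dist_triangle a (γ₁ s) c
        have b3 := dist_triangle (γ₁ s) (γ₂ (t - ℓ₁)) c
        rw [abs_sub_comm, abs_of_nonneg (by linarith)]
        apply le_antisymm <;> linarith
      · rw [if_neg h3, if_neg h4]
        have h4' := not_le.1 h4
        rw [h₂.isom (s - ℓ₁) ⟨by linarith, by linarith [hs.2]⟩ (t - ℓ₁)
          ⟨by linarith, by linarith [ht.2]⟩]
        congr 1
        ring
  refine ⟨fun t => if t ≤ ℓ₁ then γ₁ t else γ₂ (t - ℓ₁), add_nonneg e1 e2, ?_, ?_, ?_⟩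
  · rw [if_pos e1]
    exact h₁.start
  · by_cases h3 : ℓ₁ + ℓ₂ ≤ ℓ₁
    · have h4 : ℓ₂ = 0 := by linarith
      rw [if_pos h3, h4, add_zero, h₁.finish, ← h₂.start, ← h₂.finish, h4]
    · rw [if_neg h3, add_sub_cancel_left]
      exact h₂.finish
  · intro s hs t ht
    rcases le_total s t with h3 | h3
    · exact key s hs t ht h3
    · rw [dist_comm, abs_sub_comm]
      exact key t ht s hs h3

private theorem const_geod {X : Type*} [MetricSpace X] (a : X) : IsGeod (fun _ => a) 0 a a where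
  nonneg := le_rfl
  start := rfl
  finish := rfl
  isom := by
    intro s hs t ht
    have h1 : s = 0 := le_antisymm hs.2 hs.1
    have h2 : t = 0 := le_antisymm ht.2 ht.1
    rw [h1, h2, dist_self, sub_self, abs_zero]

private theorem seg {p q : Pt K} (h : Cs K p q) : ∃ γ, IsGeod γ (hd p.1 q.1) p q := by
  by_cases h0 : hd p.1 q.1 = 0
  · obtain rfl := eq_of_hd_eq_zero p q h0
    rw [h0]
    exact ⟨_, const_geod p⟩
  have hpos : 0 < hd p.1 q.1 := lt_of_le_of_ne (hd_nonneg _ _) (Ne.symm h0)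
  have hm : ∀ x : ℝ, max 0 (min 1 x) ∈ Icc (0 : ℝ) 1 := fun x =>
    ⟨le_max_left _ _, max_le zero_le_one (min_le_left _ _)⟩
  have hc : ∀ x ∈ Icc (0 : ℝ) 1, max 0 (min 1 x) = x := fun x hx => by
    rw [min_eq_right hx.2, max_eq_right hx.1]
  refine ⟨fun t => ⟨lin p.1 q.1 (max 0 (min 1 (t / hd p.1 q.1))), lin_mem h (hm _)⟩,
    hpos.le, ?_, ?_, ?_⟩
  · apply Subtype.ext
    change lin p.1 q.1 (max 0 (min 1 (0 / hd p.1 q.1))) = p.1
    rw [zero_div, hc 0 ⟨le_rfl, zero_le_one⟩]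
    funext v
    simp [lin]
  · apply Subtype.ext
    change lin p.1 q.1 (max 0 (min 1 (hd p.1 q.1 / hd p.1 q.1))) = q.1
    rw [div_self h0, hc 1 ⟨zero_le_one, le_rfl⟩]
    funext v
    simp [lin]
  · intro s hs t ht
    have hs' : s / hd p.1 q.1 ∈ Icc (0 : ℝ) 1 :=
      ⟨div_nonneg hs.1 hpos.le, (div_le_one hpos).2 hs.2⟩
    have ht' : t / hd p.1 q.1 ∈ Icc (0 : ℝ) 1 :=
      ⟨div_nonneg ht.1 hpos.le, (div_le_one hpos).2 ht.2⟩
    rw [dist_eq_hd]
    · change hd (lin p.1 q.1 (max 0 (min 1 (s / hd p.1 q.1))))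
        (lin p.1 q.1 (max 0 (min 1 (t / hd p.1 q.1)))) = |s - t|
      rw [hc _ hs', hc _ ht', hd_lin, ← sub_div, abs_div, abs_of_pos hpos,
        div_mul_cancel₀ _ h0]
    · obtain ⟨F, hF, hz⟩ := h
      refine ⟨F, hF, fun v hv => ?_⟩
      obtain ⟨h1, h2⟩ := hz v hv
      constructor
      · change (1 - _) * p.1 v + _ * q.1 v = 0
        rw [h1, h2]
        ring
      · change (1 - _) * p.1 v + _ * q.1 v = 0
        rw [h1, h2]
        ring

private theorem chain_geod {p q : Pt K} {ℓ : ℝ} (h : Ch K p q ℓ) (hd : dist p q = ℓ) :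
    ∃ γ, IsGeod γ ℓ p q := by
  induction h with
  | nil p => exact ⟨_, const_geod p⟩
  | @cons p q r ℓ h h' ih =>
    have h1 := dist_eq_hd h
    have h2 : dist q r ≤ ℓ := gdist_le h'
    have h3 := dist_triangle p q r
    obtain ⟨γ₂, hγ₂⟩ := ih (by linarith)
    obtain ⟨γ₁, hγ₁⟩ := seg h
    exact isGeod_trans hγ₁ hγ₂ hd

theorem geodesic_pt : Geodesic (Pt K) := fun p q => chain_geod (exists_min_chain p q) rfl

end URW
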