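import Pool.Agent.URW.Geo.Defs

/-!
# URW package Geo/Hd: the half ℓ¹-distance

All points `p : Pt K` are nonnegative, finitely supported (support inside a simplex) and have sum
`1` (unfold `Pt`, `Complex.real`). Write `S` for a finset containing the supports of all points
in question (union of their simplices); then every `finsum` below is a `Finset.sum` over `S`
(`finsum_eq_sum_of_support_subset`).
* `hd_nonneg`, `hd_self`, `hd_comm`: clear (`finsum_nonneg`).
* `hd_triangle`: `|p v - r v| ≤ |p v - q v| + |q v - r v|` summed over `S`.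
* `eq_of_hd_eq_zero`: a sum of nonnegative terms over `S` vanishes.
* `abs_coord_le`: `0 = ∑ (p w - q w) = (p v - q v) + ∑_{w ≠ v} (p w - q w)`, hence
  `|p v - q v| ≤ ∑_{w ≠ v} |p w - q w|` and `2 |p v - q v| ≤ ∑ |p w - q w|`.
* `hd_le_one`: `|p v - q v| ≤ p v + q v`, the sum over `S` is `2`.
* `hd_osc`: let `s` be the common simplex, `S = s`, `M = max n`, `μ = min n` on `s`, so `M - μ ≤ 1`
  (any two vertices of `s` are `Ed`); with `c = (M + μ) / 2`,
  `∑ (p v - q v) n v = ∑ (p v - q v) (n v - c)` (as `∑ (p v - q v) = 0`) and `|n v - c| ≤ 1/2`.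
  (Or avoid max/min: fix `v₀ ∈ s` maximising `n` (`Finset.exists_max_image`), `v₁` minimising.)
* `lin_mem`: the point `(1 - t) p + t q` is supported in the common simplex.
* `hd_lin`: `|lin s v - lin t v| = |s - t| |p v - q v|`; pull the constant out of the finsum
  (`mul_finsum` needs finiteness of the support or treat `s = t` separately:
  `smul_finsum`/`mul_finsum'`...). Here `p q : Pt K`, so supports are finite.
-/

set_option autoImplicit false

open Set UW1

namespace URW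

universe u

variable {U : Type u} {K : Complex U}

/-- The point dividing the segment from `p` to `q` in the ratio `t : 1 - t`. -/
def lin (p q : U → ℝ) (t : ℝ) : U → ℝ := fun v => (1 - t) * p v + t * q v

private theorem supp1 (p : Pt K) : ∃ S : Finset U, ∀ v, v ∉ S → p.1 v = 0 := by
  obtain ⟨s, -, -, h, -⟩ := p.2
  exact ⟨s, h⟩

private theorem supp2 (p q : Pt K) :
    ∃ S : Finset U, (∀ v, v ∉ S → p.1 v = 0) ∧ ∀ v, v ∉ S → q.1 v = 0 := by
  classical
  obtain ⟨S, hS⟩ := supp1 p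
  obtain ⟨T, hT⟩ := supp1 q
  refine ⟨S ∪ T, fun v hv => hS v fun h => hv (Finset.mem_union_left _ h),
    fun v hv => hT v fun h => hv (Finset.mem_union_right _ h)⟩

private theorem nn (p : Pt K) (v : U) : 0 ≤ p.1 v := by
  obtain ⟨s, -, h1, h2, -⟩ := p.2
  by_cases hv : v ∈ s
  · exact h1 v hv
  · rw [h2 v hv]

private theorem fs {f : U → ℝ} {S : Finset U} (h : ∀ v, v ∉ S → f v = 0) :
    ∑ᶠ v, f v = ∑ v ∈ S, f v := by
  refine finsum_eq_sum_of_support_subset f ?_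
  intro v hv
  by_contra h1
  exact hv (h v h1)

private theorem sum_one (p : Pt K) {S : Finset U} (h : ∀ v, v ∉ S → p.1 v = 0) :
    ∑ v ∈ S, p.1 v = 1 := by
  obtain ⟨s, -, -, h2, h3⟩ := p.2
  rw [← fs h, fs h2, h3]

private theorem hd_eq {p q : U → ℝ} {S : Finset U} (hp : ∀ v, v ∉ S → p v = 0)
    (hq : ∀ v, v ∉ S → q v = 0) : hd p q = 1 / 2 * ∑ v ∈ S, |p v - q v| := by
  unfold hd
  rw [fs (S := S) fun v hv => by rw [hp v hv, hq v hv, sub_zero, abs_zero]]

theorem hd_nonneg (p q : U → ℝ) : 0 ≤ hd p q :=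
  mul_nonneg (by norm_num) (finsum_nonneg fun _ => abs_nonneg _)

theorem hd_self (p : U → ℝ) : hd p p = 0 := by
  simp [hd]

theorem hd_comm (p q : U → ℝ) : hd p q = hd q p := by
  unfold hd
  simp only [abs_sub_comm]

theorem hd_triangle (p q r : Pt K) : hd p.1 r.1 ≤ hd p.1 q.1 + hd q.1 r.1 := by
  classical
  obtain ⟨S, hp, hq⟩ := supp2 p q
  obtain ⟨T, hr⟩ := supp1 r
  have hp' : ∀ v, v ∉ S ∪ T → p.1 v = 0 := fun v hv => hp v fun h =>
    hv (Finset.mem_union_left _ h)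
  have hq' : ∀ v, v ∉ S ∪ T → q.1 v = 0 := fun v hv => hq v fun h =>
    hv (Finset.mem_union_left _ h)
  have hr' : ∀ v, v ∉ S ∪ T → r.1 v = 0 := fun v hv => hr v fun h =>
    hv (Finset.mem_union_right _ h)
  rw [hd_eq hp' hr', hd_eq hp' hq', hd_eq hq' hr', ← mul_add, ← Finset.sum_add_distrib]
  exact mul_le_mul_of_nonneg_left (Finset.sum_le_sum fun v _ => abs_sub_le _ _ _)
    (by norm_num)

theorem eq_of_hd_eq_zero (p q : Pt K) (h : hd p.1 q.1 = 0) : p = q := by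
  obtain ⟨S, hp, hq⟩ := supp2 p q
  rw [hd_eq hp hq] at h
  have h1 : ∑ v ∈ S, |p.1 v - q.1 v| = 0 := by linarith
  rw [Finset.sum_eq_zero_iff_of_nonneg fun v _ => abs_nonneg _] at h1
  refine Subtype.ext (funext fun v => ?_)
  by_cases hv : v ∈ S
  · exact sub_eq_zero.1 (abs_eq_zero.1 (h1 v hv))
  · rw [hp v hv, hq v hv]

theorem abs_coord_le (p q : Pt K) (v : U) : |p.1 v - q.1 v| ≤ hd p.1 q.1 := by
  classical
  obtain ⟨S, hp, hq⟩ := supp2 p q
  by_cases hv : v ∈ S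
  · rw [hd_eq hp hq]
    have h1 : ∑ w ∈ S, (p.1 w - q.1 w) = 0 := by
      rw [Finset.sum_sub_distrib, sum_one p hp, sum_one q hq, sub_self]
    rw [← Finset.add_sum_erase S _ hv] at h1 ⊢
    have h2 : |p.1 v - q.1 v| ≤ ∑ w ∈ S.erase v, |p.1 w - q.1 w| := by
      rw [eq_neg_of_add_eq_zero_left h1, abs_neg]
      exact Finset.abs_sum_le_sum_abs _ _
    linarith
  · rw [hp v hv, hq v hv, sub_zero, abs_zero]
    exact hd_nonneg _ _

theorem hd_le_one (p q : Pt K) : hd p.1 q.1 ≤ 1 := by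
  obtain ⟨S, hp, hq⟩ := supp2 p q
  rw [hd_eq hp hq]
  have h1 : ∑ v ∈ S, |p.1 v - q.1 v| ≤ ∑ v ∈ S, (p.1 v + q.1 v) := by
    refine Finset.sum_le_sum fun v _ => ?_
    have h2 := nn p v
    have h3 := nn q v
    rw [abs_le]
    constructor <;> linarith
  rw [Finset.sum_add_distrib, sum_one p hp, sum_one q hq] at h1
  linarith

theorem hd_osc (p q : Pt K) (n : U → ℝ) (h : Cs K p q)
    (hn : ∀ u v, Ed K u v → |n u - n v| ≤ 1) :
    |(∑ᶠ v, p.1 v * n v) - ∑ᶠ v, q.1 v * n v| ≤ hd p.1 q.1 := by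
  obtain ⟨s, hs, h0⟩ := h
  have hp : ∀ v, v ∉ s → p.1 v = 0 := fun v hv => (h0 v hv).1
  have hq : ∀ v, v ∉ s → q.1 v = 0 := fun v hv => (h0 v hv).2
  rw [hd_eq hp hq, fs (S := s) fun v hv => by rw [hp v hv, zero_mul],
    fs (S := s) fun v hv => by rw [hq v hv, zero_mul]]
  obtain ⟨a, ha, ha'⟩ := s.exists_max_image n (K.nonempty_of_mem s hs)
  obtain ⟨b, hb, hb'⟩ := s.exists_min_image n (K.nonempty_of_mem s hs)
  have h1 : n a - n b ≤ 1 := (le_abs_self _).trans (hn a b ⟨s, hs, ha, hb⟩)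
  have e1 : (∑ v ∈ s, p.1 v * n v) - ∑ v ∈ s, q.1 v * n v =
      ∑ v ∈ s, (p.1 v - q.1 v) * (n v - (n a + n b) / 2) := by
    have e2 : ∑ v ∈ s, (p.1 v - q.1 v) = 0 := by
      rw [Finset.sum_sub_distrib, sum_one p hp, sum_one q hq, sub_self]
    have e3 : ∀ v ∈ s, (p.1 v - q.1 v) * (n v - (n a + n b) / 2) =
        (p.1 v * n v - q.1 v * n v) - (p.1 v - q.1 v) * ((n a + n b) / 2) := fun v _ => by ring
    rw [Finset.sum_congr rfl e3, Finset.sum_sub_distrib, ← Finset.sum_mul, e2, zero_mul,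
      sub_zero, Finset.sum_sub_distrib]
  rw [e1, Finset.mul_sum]
  refine (Finset.abs_sum_le_sum_abs _ _).trans (Finset.sum_le_sum fun v hv => ?_)
  rw [abs_mul, mul_comm]
  refine mul_le_mul_of_nonneg_right ?_ (abs_nonneg _)
  have h2 := ha' v hv
  have h3 := hb' v hv
  rw [abs_le]
  constructor <;> linarith

theorem lin_mem {p q : Pt K} (h : Cs K p q) {t : ℝ} (ht : t ∈ Icc (0 : ℝ) 1) :
    lin p.1 q.1 t ∈ K.real := by
  obtain ⟨s, hs, h0⟩ := h
  have hp : ∀ v, v ∉ s → p.1 v = 0 := fun v hv => (h0 v hv).1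
  have hq : ∀ v, v ∉ s → q.1 v = 0 := fun v hv => (h0 v hv).2
  refine ⟨s, hs, fun v _ => ?_, fun v hv => ?_, ?_⟩
  · exact add_nonneg (mul_nonneg (by linarith [ht.2]) (nn p v)) (mul_nonneg ht.1 (nn q v))
  · unfold lin
    rw [hp v hv, hq v hv, mul_zero, mul_zero, add_zero]
  · unfold lin
    rw [Finset.sum_add_distrib, ← Finset.mul_sum, ← Finset.mul_sum, sum_one p hp, sum_one q hq]
    ring

theorem hd_lin (p q : Pt K) (s t : ℝ) :
    hd (lin p.1 q.1 s) (lin p.1 q.1 t) = |s - t| * hd p.1 q.1 := by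
  obtain ⟨S, hp, hq⟩ := supp2 p q
  have h1 : ∀ r v, v ∉ S → lin p.1 q.1 r v = 0 := fun r v hv => by
    unfold lin
    rw [hp v hv, hq v hv, mul_zero, mul_zero, add_zero]
  have h2 : ∀ v ∈ S, |lin p.1 q.1 s v - lin p.1 q.1 t v| = |s - t| * |p.1 v - q.1 v| := by
    intro v _
    rw [← abs_mul, ← abs_neg]
    unfold lin
    congr 1
    ring
  rw [hd_eq (h1 s) (h1 t), hd_eq hp hq, Finset.sum_congr rfl h2, ← Finset.mul_sum]
  ring

end URW
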