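import Pool.Agent.URW.Geo.Hd

/-!
# URW package Geo/Metric: the polyhedral length metric

* `Ch.hd_le`: induction on the chain with `hd_triangle`.
* `Ch.append`: induction on the first chain. `Ch.single`: one segment (`cons` and `nil`).
* `Ch.symm`: induction, `append` with a single segment (`Cs` is symmetric, `hd_comm`).
* `Ch.exists`: `p` is joined to a vertex of its support simplex by one segment (a point and a
  vertex of its simplex are `Cs`), two vertices are joined along the walk given by `hK.conn`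
  (induction on `ReflTransGen`; `Ed K a b` makes `vx a`, `vx b` `Cs`), and the same for `q`.
* `gdist_le`: `csInf_le` (the set is bounded below by `0`, `Ch.hd_le`, `hd_nonneg`).
* `hd_le_gdist`: `le_csInf` with `Ch.exists`.
* `gdist_triangle`: for `ε > 0` take chains with lengths `< gdist + ε/2` and append them.
The instance is assembled from these lemmas.
-/

set_option autoImplicit false

open Set UW1

namespace URW

universe u

variable {U : Type u} {K : Complex U}

theorem Ch.hd_le {p q : Pt K} {ℓ : ℝ} (h : Ch K p q ℓ) : hd p.1 q.1 ≤ ℓ := by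
  induction h with
  | nil p => exact le_of_eq (hd_self p.1)
  | cons _ _ ih => exact (hd_triangle _ _ _).trans (add_le_add le_rfl ih)

theorem Ch.single {p q : Pt K} (h : Cs K p q) : Ch K p q (hd p.1 q.1) := by
  have h1 := Ch.cons h (Ch.nil q)
  rwa [add_zero] at h1

theorem Ch.append {p q r : Pt K} {ℓ ℓ' : ℝ} (h : Ch K p q ℓ) (h' : Ch K q r ℓ') :
    Ch K p r (ℓ + ℓ') := by
  induction h with
  | nil p =>
    rw [zero_add]
    exact h'
  | cons h1 _ ih =>
    rw [add_assoc]
    exact Ch.cons h1 (ih h')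

private theorem Cs.symm' {p q : Pt K} (h : Cs K p q) : Cs K q p := by
  obtain ⟨s, hs, h1⟩ := h
  exact ⟨s, hs, fun v hv => ⟨(h1 v hv).2, (h1 v hv).1⟩⟩

theorem Ch.symm {p q : Pt K} {ℓ : ℝ} (h : Ch K p q ℓ) : Ch K q p ℓ := by
  induction h with
  | nil p => exact Ch.nil p
  | cons h1 _ ih =>
    rw [hd_comm, add_comm]
    exact ih.append (Ch.single (Cs.symm' h1))

private theorem vx_ne (hK : Nice K) {v w : U} (h : w ≠ v) : (vx hK v).1 w = 0 := by
  classical
  show (if w = v then (1 : ℝ) else 0) = 0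
  exact if_neg h

private theorem ex_vert (hK : Nice K) (p : Pt K) : ∃ v, Cs K p (vx hK v) := by
  obtain ⟨s, hs, _, h2, _⟩ := p.2
  obtain ⟨v, hv⟩ := K.nonempty_of_mem s hs
  exact ⟨v, s, hs, fun w hw => ⟨h2 w hw, vx_ne hK fun h => hw (h ▸ hv)⟩⟩

private theorem ex_walk (hK : Nice K) {u v : U} (h : Relation.ReflTransGen (Ed K) u v) :
    ∃ ℓ, Ch K (vx hK u) (vx hK v) ℓ := by
  induction h with
  | refl => exact ⟨0, Ch.nil _⟩
  | tail _ h1 ih =>
    obtain ⟨ℓ, hℓ⟩ := ih
    obtain ⟨s, hs, ha, hb⟩ := h1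
    exact ⟨_, hℓ.append (Ch.single ⟨s, hs, fun w hw =>
      ⟨vx_ne hK fun h => hw (h ▸ ha), vx_ne hK fun h => hw (h ▸ hb)⟩⟩)⟩

theorem Ch.exists (hK : Nice K) (p q : Pt K) : ∃ ℓ, Ch K p q ℓ := by
  obtain ⟨u, hu⟩ := ex_vert hK p
  obtain ⟨v, hv⟩ := ex_vert hK q
  obtain ⟨ℓ, hℓ⟩ := ex_walk hK (hK.conn u v)
  exact ⟨_, ((Ch.single hu).append hℓ).append (Ch.single (Cs.symm' hv))⟩

theorem gdist_le {p q : Pt K} {ℓ : ℝ} (h : Ch K p q ℓ) : gdist K p q ≤ ℓ :=
  csInf_le ⟨0, fun _ h' => (hd_nonneg p.1 q.1).trans (Ch.hd_le h')⟩ h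

theorem hd_le_gdist (hK : Nice K) (p q : Pt K) : hd p.1 q.1 ≤ gdist K p q :=
  le_csInf (Ch.exists hK p q) fun _ h => Ch.hd_le h

theorem gdist_self (p : Pt K) : gdist K p p = 0 := by
  refine le_antisymm (gdist_le (Ch.nil p)) ?_
  exact Real.sInf_nonneg fun _ h => (hd_nonneg p.1 p.1).trans (Ch.hd_le h)

theorem gdist_comm (p q : Pt K) : gdist K p q = gdist K q p := by
  unfold gdist
  congr 1
  ext ℓ
  exact ⟨Ch.symm, Ch.symm⟩

theorem gdist_triangle (hK : Nice K) (p q r : Pt K) :
    gdist K p r ≤ gdist K p q + gdist K q r := by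
  refine le_of_forall_pos_le_add fun ε hε => ?_
  obtain ⟨ℓ, h1, h2⟩ := exists_lt_of_csInf_lt (Ch.exists hK p q)
    (show gdist K p q < gdist K p q + ε / 2 by linarith)
  obtain ⟨ℓ', h3, h4⟩ := exists_lt_of_csInf_lt (Ch.exists hK q r)
    (show gdist K q r < gdist K q r + ε / 2 by linarith)
  have h5 := gdist_le (Ch.append h1 h3)
  linarith

/-- The length metric of the realization of a connected locally finite complex. -/
noncomputable instance instMetricPt [hK : Fact (Nice K)] : MetricSpace (Pt K) where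
  dist := gdist K
  dist_self := gdist_self
  dist_comm := gdist_comm
  dist_triangle := gdist_triangle hK.out
  eq_of_dist_eq_zero := by
    intro p q h
    refine eq_of_hd_eq_zero p q (le_antisymm ?_ (hd_nonneg _ _))
    exact (hd_le_gdist hK.out p q).trans (le_of_eq h)

theorem dist_eq_gdist [Fact (Nice K)] (p q : Pt K) : dist p q = gdist K p q := rfl

end URW
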