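import Pool.Agent.URW.Geo.Vert

/-!
# URW package Geo/Min: shortest chains exist

PROOF. Let `d = dist p q`. Let `u` be a vertex of the support of `p`, `n v` the graph distance from
`u` to `v` (as in `exists_walk`: `Nat.find`), `f r = ∑ᶠ v, r v * n v`. Along a chain of length
`≤ d + 1` starting at `p` every point `r` has `f r ≤ 1 + (d + 1)` (`hd_osc`; `f p ≤ 1`), so some
vertex of the support of `r` has `n ≤ d + 2`, and every simplex used by the chain has a vertex with
`n ≤ d + 2`. The set `F` of the simplices with such a vertex is finite (balls of the graph are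
finite by induction from `locfin`).
SHORTCUTS: a chain all of whose segments use simplices of the finite set `F` can be replaced by a
chain with at most `F.ncard` segments, each in a simplex of `F`, and not longer: if two segments
`[r_i, r_{i+1}]`, `[r_j, r_{j+1}]`, `i < j`, use the same simplex, replace the part from `r_i` to
`r_{j+1}` by the segment `[r_i, r_{j+1}]`, of length `hd r_i r_{j+1} ≤` the length of the part
(`hd_triangle`).
COMPACTNESS: put `M = F.ncard`. Consider the set of all `(r_0, ..., r_M)` with `r_0 = p`, `r_M = q`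
and each pair `r_i, r_{i+1}` in a common simplex of `F` (repetitions `r_i = r_{i+1}` pad shorter
chains). As a subset of `Fin (M+1) → (U → ℝ)` (product topology) it is a finite union (over the
choices of the simplices) of compact sets: for a fixed finite `s` the set
`{c | (∀ v ∈ s, 0 ≤ c v) ∧ (∀ v ∉ s, c v = 0) ∧ ∑ v ∈ s, c v = 1}` is compact (closed subset of
`Set.pi univ (fun _ => Icc 0 1)`), and on it `hd` is a finite sum of continuous functions. So the
length `∑ i, hd r_i r_{i+1}` attains its minimum `ℓ₀`, the set is nonempty (a chain of length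
`< d + 1` exists), `ℓ₀ ≤` every chain length `< d + 1`, hence `ℓ₀ ≤ d` by definition of the infimum,
and `ℓ₀ ≥ d` as it is the length of a chain.
(It is fine to work with an auxiliary inductive `Ch` restricted to simplices of `F` and with an
induction on the number of simplices instead of tuples: e.g. prove by induction on `F.ncard` that
the infimum of the lengths of `F`-chains from `p` to `q` is attained.)
-/

set_option autoImplicit false

open Set UW1

namespace URW

universe u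

variable {U : Type u} {K : Complex U} [hK : Fact (Nice K)]

/-- chains with prescribed simplices -/
private def LC (K : Complex U) : List (Finset U) → Pt K → Pt K → ℝ → Prop
  | [], p, q, ℓ => p = q ∧ ℓ = 0
  | s :: σ, p, q, ℓ => ∃ (r : Pt K) (ℓ' : ℝ), s ∈ K.faces ∧
      (∀ v, v ∉ s → p.1 v = 0 ∧ r.1 v = 0) ∧ LC K σ r q ℓ' ∧ ℓ = hd p.1 r.1 + ℓ'

omit hK in
private theorem LC.ch : ∀ {σ : List (Finset U)} {p q : Pt K} {ℓ : ℝ}, LC K σ p q ℓ → Ch K p q ℓ
  | [], p, q, ℓ, h => by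
    obtain ⟨rfl, rfl⟩ := h
    exact Ch.nil p
  | s :: σ, p, q, ℓ, h => by
    obtain ⟨r, ℓ', hs, hv, hr, rfl⟩ := h
    exact Ch.cons ⟨s, hs, hv⟩ hr.ch

omit hK in
private theorem LC.split : ∀ {σ₁ σ₂ : List (Finset U)} {p q : Pt K} {ℓ : ℝ},
    LC K (σ₁ ++ σ₂) p q ℓ → ∃ (r : Pt K) (ℓ₁ ℓ₂ : ℝ), LC K σ₁ p r ℓ₁ ∧ LC K σ₂ r q ℓ₂ ∧
      ℓ = ℓ₁ + ℓ₂
  | [], σ₂, p, q, ℓ, h => ⟨p, 0, ℓ, ⟨rfl, rfl⟩, h, (zero_add ℓ).symm⟩
  | s :: σ₁, σ₂, p, q, ℓ, h => by
    obtain ⟨r, ℓ', hs, hv, hr, rfl⟩ := h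
    obtain ⟨r', ℓ₁, ℓ₂, h1, h2, rfl⟩ := hr.split
    exact ⟨r', hd p.1 r.1 + ℓ₁, ℓ₂, ⟨r, ℓ₁, hs, hv, h1, rfl⟩, h2, by ring⟩

omit hK in
/-- shortcuts -/
private theorem LC.nodup : ∀ {σ : List (Finset U)} {p q : Pt K} {ℓ : ℝ}, LC K σ p q ℓ →
    ∃ (σ' : List (Finset U)) (ℓ' : ℝ), σ'.Nodup ∧ σ' ⊆ σ ∧ ℓ' ≤ ℓ ∧ LC K σ' p q ℓ'
  | [], p, q, ℓ, h => ⟨[], ℓ, List.nodup_nil, List.Subset.refl _, le_rfl, h⟩
  | s :: σ, p, q, ℓ, h => by
    obtain ⟨r, ℓ₁, hs, hv, hr, rfl⟩ := h
    obtain ⟨τ, ℓ₂, hn, hsub, hle, hτ⟩ := hr.nodup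
    by_cases hsτ : s ∈ τ
    · obtain ⟨τ₁, τ₂, rfl⟩ := List.append_of_mem hsτ
      obtain ⟨a, m₁, m₂, h1, h2, rfl⟩ := hτ.split
      obtain ⟨b, m₃, -, hv', h3, rfl⟩ := h2
      refine ⟨s :: τ₂, hd p.1 b.1 + m₃, (List.nodup_append.1 hn).2.1, ?_, ?_,
        ⟨b, m₃, hs, fun v hv0 => ⟨(hv v hv0).1, (hv' v hv0).2⟩, h3, rfl⟩⟩
      · intro x hx
        rcases List.mem_cons.1 hx with rfl | hx
        · exact List.mem_cons_self
        · exact List.mem_cons_of_mem _
            (hsub (List.mem_append_right _ (List.mem_cons_of_mem _ hx)))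
      · have e1 := hd_triangle p r b
        have e2 := hd_triangle r a b
        have e3 := h1.ch.hd_le
        linarith
    · refine ⟨s :: τ, hd p.1 r.1 + ℓ₂, List.nodup_cons.2 ⟨hsτ, hn⟩, ?_, by linarith,
        ⟨r, ℓ₂, hs, hv, hτ, rfl⟩⟩
      intro x hx
      rcases List.mem_cons.1 hx with rfl | hx
      · exact List.mem_cons_self
      · exact List.mem_cons_of_mem _ (hsub hx)

/-- the points of a simplex -/
private def Cx (s : Finset U) : Set (U → ℝ) :=
  {c | (∀ v ∈ s, 0 ≤ c v) ∧ (∀ v, v ∉ s → c v = 0) ∧ ∑ v ∈ s, c v = 1}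

omit hK in
private theorem mem_Cx {p : Pt K} {s : Finset U} (h : ∀ v, v ∉ s → p.1 v = 0) : p.1 ∈ Cx s := by
  classical
  obtain ⟨c, s', hs', h1, h2, h3⟩ := p
  change ∀ v, v ∉ s → c v = 0 at h
  refine ⟨fun v _ => ?_, h, ?_⟩
  · by_cases hv : v ∈ s'
    · exact h1 v hv
    · exact le_of_eq (h2 v hv).symm
  · change ∑ v ∈ s, c v = 1
    rw [← h3]
    have e1 : ∑ v ∈ s, c v = ∑ v ∈ s ∪ s', c v :=
      Finset.sum_subset Finset.subset_union_left fun v _ hv => h v hv
    have e2 : ∑ v ∈ s', c v = ∑ v ∈ s ∪ s', c v :=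
      Finset.sum_subset Finset.subset_union_right fun v _ hv => h2 v hv
    rw [e1, e2]

private theorem isCompact_Cx (s : Finset U) : IsCompact (Cx s) := by
  have h1 : IsCompact (Set.pi Set.univ fun _ : U => Icc (0 : ℝ) 1) :=
    isCompact_univ_pi fun _ => isCompact_Icc
  refine h1.of_isClosed_subset ?_ ?_
  · have e1 : IsClosed {c : U → ℝ | ∀ v ∈ s, 0 ≤ c v} := by
      simp only [Set.ofPred_forall]
      exact isClosed_iInter fun v => isClosed_iInter fun _ =>
        isClosed_le continuous_const (continuous_apply v)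
    have e2 : IsClosed {c : U → ℝ | ∀ v, v ∉ s → c v = 0} := by
      simp only [Set.ofPred_forall]
      exact isClosed_iInter fun v => isClosed_iInter fun _ =>
        isClosed_eq (continuous_apply v) continuous_const
    have e3 : IsClosed {c : U → ℝ | ∑ v ∈ s, c v = 1} :=
      isClosed_eq (continuous_finsetSum s fun v _ => continuous_apply v) continuous_const
    exact e1.inter (e2.inter e3)
  · rintro c ⟨h2, h3, h4⟩ v -
    by_cases hv : v ∈ s
    · refine ⟨h2 v hv, ?_⟩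
      rw [← h4]
      exact Finset.single_le_sum (f := c) (fun w hw => h2 w hw) hv
    · rw [h3 v hv]
      exact ⟨le_rfl, zero_le_one⟩

omit hK in
private theorem hd_eq_sum {a b : U → ℝ} {s : Finset U} (h : ∀ v, v ∉ s → a v = 0 ∧ b v = 0) :
    hd a b = (1 / 2) * ∑ v ∈ s, |a v - b v| := by
  unfold hd
  congr 1
  refine finsum_eq_sum_of_support_subset _ ?_
  intro v hv
  by_contra hvs
  apply hv
  obtain ⟨h1, h2⟩ := h v hvs
  change |a v - b v| = 0
  rw [h1, h2, sub_zero, abs_zero]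

omit hK in
private theorem LC.compact (q : Pt K) : ∀ σ : List (Finset U),
    IsCompact {x : (U → ℝ) × ℝ | ∃ a : Pt K, a.1 = x.1 ∧ LC K σ a q x.2}
  | [] => by
    have : {x : (U → ℝ) × ℝ | ∃ a : Pt K, a.1 = x.1 ∧ LC K [] a q x.2} = {(q.1, 0)} := by
      ext ⟨c, ℓ⟩
      constructor
      · rintro ⟨a, ha, rfl, hℓ⟩
        exact Prod.ext ha.symm hℓ
      · intro h
        have h1 : c = q.1 := congrArg Prod.fst h
        have h2 : ℓ = 0 := congrArg Prod.snd h
        exact ⟨q, h1.symm, rfl, h2⟩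
    rw [this]
    exact isCompact_singleton
  | s :: σ => by
    by_cases hs : s ∈ K.faces
    · have ih := LC.compact q σ
      have h1 : IsCompact ({x : (U → ℝ) × ℝ | ∃ a : Pt K, a.1 = x.1 ∧ LC K σ a q x.2} ∩
          {x : (U → ℝ) × ℝ | x.1 ∈ Cx s}) :=
        ih.inter_right ((isCompact_Cx s).isClosed.preimage continuous_fst)
      have h2 := (isCompact_Cx s).prod h1
      have hf : Continuous fun x : (U → ℝ) × ((U → ℝ) × ℝ) =>
          ((x.1, (1 / 2) * ∑ v ∈ s, |x.1 v - x.2.1 v| + x.2.2) : (U → ℝ) × ℝ) := by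
        refine continuous_fst.prodMk (Continuous.add ?_ (continuous_snd.comp continuous_snd))
        refine continuous_const.mul (continuous_finsetSum s fun v _ => ?_)
        exact (((continuous_apply v).comp continuous_fst).sub
          ((continuous_apply v).comp (continuous_fst.comp continuous_snd))).abs
      have h3 := h2.image hf
      convert h3 using 1
      ext ⟨c, ℓ⟩
      constructor
      · rintro ⟨a, ha, r, ℓ', -, hv, hr, hℓ⟩
        refine ⟨(c, (r.1, ℓ')), ⟨?_, ⟨r, rfl, hr⟩, mem_Cx fun v hv' => (hv v hv').2⟩, ?_⟩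
        · change c ∈ Cx s
          rw [← show a.1 = c from ha]
          exact mem_Cx fun v hv' => (hv v hv').1
        · refine Prod.ext rfl ?_
          change (1 / 2) * ∑ v ∈ s, |c v - r.1 v| + ℓ' = ℓ
          rw [show ℓ = hd a.1 r.1 + ℓ' from hℓ, hd_eq_sum hv, show a.1 = c from ha]
      · rintro ⟨⟨c', b, ℓ'⟩, ⟨hc', ⟨r, hr, hL⟩, hb⟩, he⟩
        have e1 : c' = c := congrArg Prod.fst he
        have e2 : (1 / 2) * ∑ v ∈ s, |c' v - b v| + ℓ' = ℓ := congrArg Prod.snd he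
        change c' ∈ Cx s at hc'
        change r.1 = b at hr
        change LC K σ r q ℓ' at hL
        change b ∈ Cx s at hb
        subst e1
        subst hr
        have hv : ∀ v, v ∉ s → c' v = 0 ∧ r.1 v = 0 := fun v hv => ⟨hc'.2.1 v hv, hb.2.1 v hv⟩
        refine ⟨⟨c', s, hs, hc'⟩, rfl, r, ℓ', hs, hv, hL, ?_⟩
        change ℓ = hd c' r.1 + ℓ'
        rw [hd_eq_sum hv, e2]
    · have : {x : (U → ℝ) × ℝ | ∃ a : Pt K, a.1 = x.1 ∧ LC K (s :: σ) a q x.2} = ∅ := by
        ext x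
        constructor
        · rintro ⟨a, -, r, ℓ', h, -⟩
          exact absurd h hs
        · intro h
          exact absurd h (Set.notMem_empty x)
      rw [this]
      exact isCompact_empty

omit hK in
private theorem LC.compact' (p q : Pt K) (σ : List (Finset U)) :
    IsCompact {ℓ : ℝ | LC K σ p q ℓ} := by
  have h1 : IsCompact ({x : (U → ℝ) × ℝ | ∃ a : Pt K, a.1 = x.1 ∧ LC K σ a q x.2} ∩
      {x : (U → ℝ) × ℝ | x.1 = p.1}) :=
    (LC.compact q σ).inter_right (isClosed_eq continuous_fst continuous_const)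
  have h2 := h1.image continuous_snd
  convert h2 using 1
  ext ℓ
  constructor
  · intro h
    exact ⟨(p.1, ℓ), ⟨⟨p, rfl, h⟩, rfl⟩, rfl⟩
  · rintro ⟨⟨c, ℓ'⟩, ⟨⟨a, ha, hL⟩, hc⟩, rfl⟩
    have : a = p := Subtype.ext (ha.trans hc)
    rw [← this]
    exact hL

omit hK in
private theorem finite_Ed (hN : Nice K) (v : U) : {w | Ed K v w}.Finite := by
  have h1 : {w | Ed K v w} ⊆ ⋃ s ∈ {s | s ∈ K.faces ∧ v ∈ s}, (s : Set U) := by
    rintro w ⟨s, hs, hv, hw⟩
    exact Set.mem_biUnion (show s ∈ {s | s ∈ K.faces ∧ v ∈ s} from ⟨hs, hv⟩) hw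
  exact ((hN.locfin v).biUnion fun s _ => s.finite_toSet).subset h1

omit hK in
private theorem finite_Rn (hN : Nice K) : ∀ (n : ℕ) (u : U), {v | Rn K n u v}.Finite
  | 0, u => by
    refine (Set.finite_singleton u).subset ?_
    intro v hv
    exact (show u = v from hv).symm
  | n + 1, u => by
    have h1 : {v | Rn K (n + 1) u v} ⊆ ⋃ w ∈ {w | Ed K u w}, {v | Rn K n w v} := by
      rintro v ⟨w, hw, hv⟩
      exact Set.mem_biUnion (show w ∈ {w | Ed K u w} from hw) hv
    exact ((finite_Ed hN u).biUnion fun w _ => finite_Rn hN n w).subset h1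

/-- the simplices near `p` -/
private theorem finite_near (p : Pt K) (R : ℝ) :
    {s | s ∈ K.faces ∧ ∃ v ∈ s, dist p (vx hK.out v) ≤ R}.Finite := by
  obtain ⟨u, hu⟩ := exists_pos p
  have hu1 := dist_point_vx p u hu.ne'
  obtain ⟨N, hN⟩ := exists_nat_ge (R + 1)
  have h1 : {s | s ∈ K.faces ∧ ∃ v ∈ s, dist p (vx hK.out v) ≤ R} ⊆
      ⋃ n ∈ Set.Iic N, ⋃ v ∈ {v | Rn K n u v}, {s | s ∈ K.faces ∧ v ∈ s} := by
    rintro s ⟨hs, v, hv, hd'⟩
    obtain ⟨n, hn, hn'⟩ := exists_walk (K := K) u v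
    have h2 : (n : ℝ) ≤ N := by
      have h3 := dist_triangle (vx hK.out u) p (vx hK.out v)
      rw [dist_comm (vx hK.out u) p] at h3
      linarith
    have h4 : n ≤ N := by exact_mod_cast h2
    exact Set.mem_biUnion (show n ∈ Set.Iic N from h4)
      (Set.mem_biUnion (show v ∈ {v | Rn K n u v} from hn) ⟨hs, hv⟩)
  exact ((Set.finite_Iic N).biUnion fun n _ => (finite_Rn hK.out n u).biUnion fun v _ =>
    hK.out.locfin v).subset h1

private theorem exists_LC (p : Pt K) {p' q : Pt K} {ℓ : ℝ} (h : Ch K p' q ℓ) : ∀ R : ℝ,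
    dist p p' + ℓ ≤ R → ∃ σ : List (Finset U),
      (∀ s ∈ σ, s ∈ K.faces ∧ ∃ v ∈ s, dist p (vx hK.out v) ≤ R + 1) ∧ LC K σ p' q ℓ := by
  induction h with
  | nil p' =>
    intro R hR
    exact ⟨[], fun s hs => absurd hs List.not_mem_nil, rfl, rfl⟩
  | @cons p' r q ℓ' hc hr ih =>
    intro R hR
    have h1 : dist p r + ℓ' ≤ R := by
      have h2 := dist_triangle p p' r
      rw [dist_eq_hd hc] at h2
      linarith
    obtain ⟨σ, hσ, hL⟩ := ih R h1
    have hℓ' : 0 ≤ ℓ' := (hd_nonneg _ _).trans hr.hd_le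
    obtain ⟨s, hs, hv⟩ := hc
    refine ⟨s :: σ, ?_, r, ℓ', hs, hv, hL, rfl⟩
    intro x hx
    rcases List.mem_cons.1 hx with rfl | hx
    · refine ⟨hs, ?_⟩
      obtain ⟨v, hv'⟩ := exists_pos p'
      refine ⟨v, ?_, ?_⟩
      · by_contra hvs
        exact hv'.ne' (hv v hvs).1
      · have h3 := dist_point_vx p' v hv'.ne'
        have h4 := dist_triangle p p' (vx hK.out v)
        have h5 := hd_nonneg p'.1 r.1
        linarith
    · exact hσ x hx

omit hK in
private theorem finite_lists {α : Type*} {F : Set α} (hF : F.Finite) :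
    {l : List α | l.Nodup ∧ ∀ x ∈ l, x ∈ F}.Finite := by
  classical
  have : Finite F := hF
  have h1 : {l : List α | l.Nodup ∧ ∀ x ∈ l, x ∈ F} ⊆
      (List.map (Subtype.val : F → α)) '' {l : List F | l.length ≤ hF.toFinset.card} := by
    rintro l ⟨hn, hl⟩
    refine ⟨l.attach.map fun x => ⟨x.1, hl x.1 x.2⟩, ?_, ?_⟩
    · change (l.attach.map fun x => (⟨x.1, hl x.1 x.2⟩ : F)).length ≤ _
      rw [List.length_map, List.length_attach, ← List.toFinset_card_of_nodup hn]
      refine Finset.card_le_card ?_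
      intro x hx
      rw [Set.Finite.mem_toFinset]
      exact hl x (List.mem_toFinset.1 hx)
    · rw [List.map_map]
      exact List.attach_map_subtype_val l
  exact ((List.finite_length_le F _).image _).subset h1

theorem exists_min_chain (p q : Pt K) : Ch K p q (dist p q) := by
  have hne : {ℓ | Ch K p q ℓ}.Nonempty := Ch.exists hK.out p q
  have hd0 : dist p q = sInf {ℓ | Ch K p q ℓ} := rfl
  obtain ⟨F, hFd⟩ : ∃ F : Set (Finset U),
    F = {s | s ∈ K.faces ∧ ∃ v ∈ s, dist p (vx hK.out v) ≤ dist p q + 1 + 1} := ⟨_, rfl⟩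
  have hF : F.Finite := by
    rw [hFd]
    exact finite_near p _
  obtain ⟨B, hBd⟩ : ∃ B : Set ℝ,
    B = ⋃ σ ∈ {l : List (Finset U) | l.Nodup ∧ ∀ x ∈ l, x ∈ F}, {ℓ | LC K σ p q ℓ} := ⟨_, rfl⟩
  have hB : IsCompact B := by
    rw [hBd]
    exact (finite_lists hF).isCompact_biUnion fun σ _ => LC.compact' p q σ
  have key : ∀ ℓ, Ch K p q ℓ → ℓ ≤ dist p q + 1 → ∃ ℓ' ∈ B, ℓ' ≤ ℓ := by
    intro ℓ h hℓ
    obtain ⟨σ, hσ, hL⟩ := exists_LC p h (dist p q + 1) (by rw [dist_self]; linarith)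
    obtain ⟨σ', ℓ', hn, hsub, hle, hL'⟩ := hL.nodup
    refine ⟨ℓ', ?_, hle⟩
    rw [hBd]
    refine Set.mem_biUnion (show σ' ∈ {l : List (Finset U) | l.Nodup ∧ ∀ x ∈ l, x ∈ F} from
      ⟨hn, fun x hx => ?_⟩) hL'
    rw [hFd]
    exact hσ x (hsub hx)
  obtain ⟨ℓ₁, h1, h1'⟩ := exists_lt_of_csInf_lt hne
    (show sInf {ℓ | Ch K p q ℓ} < dist p q + 1 by rw [← hd0]; linarith)
  obtain ⟨ℓ₂, h2, -⟩ := key ℓ₁ h1 h1'.le
  obtain ⟨ℓ₀, h0, hmin⟩ := hB.exists_isLeast ⟨ℓ₂, h2⟩
  have hCh : Ch K p q ℓ₀ := by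
    rw [hBd] at h0
    obtain ⟨σ, -, hL⟩ := Set.mem_iUnion₂.1 h0
    exact LC.ch hL
  have hle : dist p q ≤ ℓ₀ := by
    rw [dist_eq_gdist]
    exact gdist_le hCh
  have hge : ℓ₀ ≤ dist p q := by
    by_contra hlt
    push Not at hlt
    obtain ⟨ℓ₃, h3, h3'⟩ := exists_lt_of_csInf_lt hne
      (show sInf {ℓ | Ch K p q ℓ} < min ℓ₀ (dist p q + 1) by
        rw [← hd0]
        exact lt_min hlt (by linarith))
    obtain ⟨ℓ₄, h4, h4'⟩ := key ℓ₃ h3 (h3'.le.trans (min_le_right _ _))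
    have h5 := hmin h4
    have h6 := h3'.trans_le (min_le_left _ _)
    linarith
  rw [le_antisymm hle hge]
  exact hCh

end URW
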