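import Pool.Agent.URW.Geo.Metric

/-!
# URW package Geo/Vert: distances of vertices, coordinates

* `dist_eq_hd`: `gdist_le (Ch.single h)` and `hd_le_gdist`.
* `coord_lip`: `abs_coord_le` and `hd_le_gdist`. `continuous_coord`: Lipschitz.
* `dist_le_two_hd`: put `ε = hd p q < 1`, `m v = min (p v) (q v)`; `∑ m = 1 - ε` (since
  `|a - b| = a + b - 2 min a b`). The point `r = m / (1 - ε)` is supported in the intersection of
  the simplices of `p` and `q`, so `Cs K p r`, `Cs K r q`. Moreover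
  `∑ |p - r| ≤ ∑ (p - m) + ∑ (r - m) = ε + ε`, i.e. `hd p r ≤ ε`, similarly `hd r q ≤ ε`.
* `dist_vx_le`: induction on `n`; `hd` of two vertices is at most `1` (`hd_le_one`), `Cs` from `Ed`.
* `exists_walk`: let `n v` be the least length of a walk from `u` to `v` (`Nat.find`, walks exist by
  `conn`); `|n v - n w| ≤ 1` if `Ed K v w`. The function `f p = ∑ᶠ v, p v * n v` satisfies
  `|f p - f q| ≤ ℓ` for every chain (`hd_osc`, induction), so `n v = |f (vx v) - f (vx u)| ≤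
  dist (vx u) (vx v)` (`le_csInf`).
* `dist_point_vx`: `p v ≠ 0` implies that `v` is in the simplex of `p`: `Cs`, `hd_le_one`.
* `exists_pos`: a point has a positive coordinate.
-/

set_option autoImplicit false

open Set UW1

namespace URW

universe u

variable {U : Type u} {K : Complex U} [hK : Fact (Nice K)]

theorem dist_eq_hd {p q : Pt K} (h : Cs K p q) : dist p q = hd p.1 q.1 :=
  le_antisymm (gdist_le (Ch.single h)) (hd_le_gdist hK.out p q)

theorem coord_lip (v : U) (p q : Pt K) : |p.1 v - q.1 v| ≤ dist p q :=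
  (abs_coord_le p q v).trans (hd_le_gdist hK.out p q)

theorem continuous_coord (v : U) : Continuous fun p : Pt K => p.1 v := by
  rw [Metric.continuous_iff]
  intro b ε hε
  refine ⟨ε, hε, fun a ha => ?_⟩
  rw [Real.dist_eq]
  exact (coord_lip v a b).trans_lt ha

omit hK in
private theorem pt_nonneg (p : Pt K) (v : U) : 0 ≤ p.1 v := by
  obtain ⟨s, -, h1, h2, -⟩ := p.2
  by_cases h : v ∈ s
  · exact h1 v h
  · exact (h2 v h).ge

private theorem hd_eq_sum (S : Finset U) (p q : U → ℝ) (hp : ∀ v, v ∉ S → p v = 0)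
    (hq : ∀ v, v ∉ S → q v = 0) : hd p q = (1 / 2) * ∑ v ∈ S, |p v - q v| := by
  unfold hd
  rw [finsum_eq_sum_of_support_subset]
  intro v hv
  rw [Function.mem_support] at hv
  by_contra hc
  apply hv
  have hc' : v ∉ S := fun h => hc (Finset.mem_coe.2 h)
  rw [hp v hc', hq v hc', sub_zero, abs_zero]

theorem dist_le_two_hd (p q : Pt K) (h : hd p.1 q.1 < 1) : dist p q ≤ 2 * hd p.1 q.1 := by
  classical
  obtain ⟨s, hs, hs1, hs2, hs3⟩ := p.2
  obtain ⟨t, ht, ht1, ht2, ht3⟩ := q.2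
  have hpS : ∀ v, v ∉ s ∪ t → p.1 v = 0 := fun v hv =>
    hs2 v fun h => hv (Finset.mem_union_left _ h)
  have hqS : ∀ v, v ∉ s ∪ t → q.1 v = 0 := fun v hv =>
    ht2 v fun h => hv (Finset.mem_union_right _ h)
  have sp : ∑ v ∈ s ∪ t, p.1 v = 1 := by
    rw [← hs3]
    exact (Finset.sum_subset Finset.subset_union_left fun v _ hv => hs2 v hv).symm
  have sq : ∑ v ∈ s ∪ t, q.1 v = 1 := by
    rw [← ht3]
    exact (Finset.sum_subset Finset.subset_union_right fun v _ hv => ht2 v hv).symm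
  obtain ⟨ε, hε⟩ : ∃ ε : ℝ, ε = hd p.1 q.1 := ⟨_, rfl⟩
  rw [← hε] at h ⊢
  have hsum : ∑ v ∈ s ∪ t, min (p.1 v) (q.1 v) = 1 - ε := by
    have h1 : ε = (1 / 2) * ∑ v ∈ s ∪ t, |p.1 v - q.1 v| := by
      rw [hε]
      exact hd_eq_sum _ _ _ hpS hqS
    have h2 : ∑ v ∈ s ∪ t, |p.1 v - q.1 v| =
        ∑ v ∈ s ∪ t, (p.1 v + q.1 v - 2 * min (p.1 v) (q.1 v)) := by
      refine Finset.sum_congr rfl fun v _ => ?_
      rcases le_total (p.1 v) (q.1 v) with h3 | h3
      · rw [min_eq_left h3, abs_of_nonpos (by linarith)]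
        ring
      · rw [min_eq_right h3, abs_of_nonneg (by linarith)]
        ring
    rw [Finset.sum_sub_distrib, Finset.sum_add_distrib, sp, sq, ← Finset.mul_sum] at h2
    linarith
  have hpos : 0 < 1 - ε := by linarith
  have hε0 : 0 ≤ ε := by
    rw [hε]
    exact hd_nonneg _ _
  obtain ⟨r, hr⟩ : ∃ r : U → ℝ, r = fun v => min (p.1 v) (q.1 v) / (1 - ε) := ⟨_, rfl⟩
  have hrv : ∀ v, r v = min (p.1 v) (q.1 v) / (1 - ε) := fun v => by rw [hr]
  have hr0 : ∀ v, 0 ≤ r v := fun v => by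
    rw [hrv]
    exact div_nonneg (le_min (pt_nonneg p v) (pt_nonneg q v)) hpos.le
  have hrs : ∀ v, v ∉ s → r v = 0 := fun v hv => by
    rw [hrv, hs2 v hv, min_eq_left (pt_nonneg q v), zero_div]
  have hrt : ∀ v, v ∉ t → r v = 0 := fun v hv => by
    rw [hrv, ht2 v hv, min_eq_right (pt_nonneg p v), zero_div]
  have hsr : ∑ v ∈ s ∪ t, r v = 1 := by
    rw [hr, ← Finset.sum_div, hsum, div_self hpos.ne']
  have hsr2 : ∑ v ∈ s ∩ t, r v = 1 := by
    rw [← hsr]
    refine Finset.sum_subset (Finset.inter_subset_left.trans Finset.subset_union_left) ?_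
    intro v _ hv
    by_cases h1 : v ∈ s
    · exact hrt v fun h2 => hv (Finset.mem_inter.2 ⟨h1, h2⟩)
    · exact hrs v h1
  have hne : (s ∩ t).Nonempty := by
    rw [Finset.nonempty_iff_ne_empty]
    intro hc
    rw [hc, Finset.sum_empty] at hsr2
    exact zero_ne_one hsr2
  have hrK : r ∈ K.real := by
    refine ⟨s ∩ t, K.down_closed s hs _ Finset.inter_subset_left hne, fun v _ => hr0 v, ?_, hsr2⟩
    intro v hv
    by_cases h1 : v ∈ s
    · exact hrt v fun h2 => hv (Finset.mem_inter.2 ⟨h1, h2⟩)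
    · exact hrs v h1
  have hrS : ∀ v, v ∉ s ∪ t → r v = 0 := fun v hv => hrs v fun h => hv (Finset.mem_union_left _ h)
  have hmr : ∀ v, min (p.1 v) (q.1 v) ≤ r v := fun v => by
    rw [hrv, le_div_iff₀ hpos]
    have := le_min (pt_nonneg p v) (pt_nonneg q v)
    nlinarith
  have c1 : Cs K p ⟨r, hrK⟩ := ⟨s, hs, fun v hv => ⟨hs2 v hv, hrs v hv⟩⟩
  have c2 : Cs K ⟨r, hrK⟩ q := ⟨t, ht, fun v hv => ⟨hrt v hv, ht2 v hv⟩⟩
  have h1 : hd p.1 r ≤ ε := by
    rw [hd_eq_sum _ _ _ hpS hrS]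
    have h2 : ∑ v ∈ s ∪ t, |p.1 v - r v| ≤
        ∑ v ∈ s ∪ t, (p.1 v + r v - 2 * min (p.1 v) (q.1 v)) := by
      refine Finset.sum_le_sum fun v _ => ?_
      have h3 := hmr v
      have h4 := min_le_left (p.1 v) (q.1 v)
      rw [abs_le]
      constructor <;> linarith
    rw [Finset.sum_sub_distrib, Finset.sum_add_distrib, sp, hsr, ← Finset.mul_sum, hsum] at h2
    linarith
  have h2 : hd r q.1 ≤ ε := by
    rw [hd_eq_sum _ _ _ hrS hqS]
    have h2 : ∑ v ∈ s ∪ t, |r v - q.1 v| ≤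
        ∑ v ∈ s ∪ t, (r v + q.1 v - 2 * min (p.1 v) (q.1 v)) := by
      refine Finset.sum_le_sum fun v _ => ?_
      have h3 := hmr v
      have h4 := min_le_right (p.1 v) (q.1 v)
      rw [abs_le]
      constructor <;> linarith
    rw [Finset.sum_sub_distrib, Finset.sum_add_distrib, sq, hsr, ← Finset.mul_sum, hsum] at h2
    linarith
  have h3 := dist_triangle p ⟨r, hrK⟩ q
  rw [dist_eq_hd c1, dist_eq_hd c2] at h3
  linarith

private theorem vx_ne {v w : U} (h : w ≠ v) : (vx hK.out v : Pt K).1 w = 0 := by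
  unfold vx
  exact if_neg h

private theorem vx_self (v : U) : (vx hK.out v : Pt K).1 v = 1 := by
  unfold vx
  exact if_pos rfl

private theorem cs_of_ed {u v : U} (h : Ed K u v) : Cs K (vx hK.out u) (vx hK.out v) := by
  obtain ⟨s, hs, hu, hv⟩ := h
  refine ⟨s, hs, fun w hw => ⟨vx_ne ?_, vx_ne ?_⟩⟩
  · rintro rfl
    exact hw hu
  · rintro rfl
    exact hw hv

theorem dist_vx_le {n : ℕ} {u v : U} (h : Rn K n u v) :
    dist (vx hK.out u) (vx hK.out v) ≤ n := by
  induction n generalizing u with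
  | zero =>
    have h' : u = v := h
    rw [h', dist_self]
    simp
  | succ n ih =>
    obtain ⟨w, h1, h2⟩ := h
    have h3 := dist_triangle (vx hK.out u) (vx hK.out w) (vx hK.out v)
    have h4 := ih h2
    have h5 : dist (vx hK.out u) (vx hK.out w) ≤ 1 := by
      rw [dist_eq_hd (cs_of_ed h1)]
      exact hd_le_one _ _
    push_cast
    linarith

omit hK in
private theorem rn_snoc {n : ℕ} {u v w : U} (h : Rn K n u v) (h' : Ed K v w) :
    Rn K (n + 1) u w := by
  induction n generalizing u with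
  | zero =>
    have h1 : u = v := h
    rw [h1]
    exact ⟨w, h', rfl⟩
  | succ n ih =>
    obtain ⟨x, h1, h2⟩ := h
    exact ⟨x, h1, ih h2⟩

private theorem rn_exists (u v : U) : ∃ n : ℕ, Rn K n u v := by
  induction hK.out.conn u v with
  | refl => exact ⟨0, rfl⟩
  | tail _ h ih =>
    obtain ⟨n, hn⟩ := ih
    exact ⟨n + 1, rn_snoc hn h⟩

omit hK in
private theorem ch_osc (n : U → ℝ) (hn : ∀ u v, Ed K u v → |n u - n v| ≤ 1) {p q : Pt K} {ℓ : ℝ}
    (h : Ch K p q ℓ) : |(∑ᶠ v, p.1 v * n v) - ∑ᶠ v, q.1 v * n v| ≤ ℓ := by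
  induction h with
  | nil p => simp
  | @cons p q r ℓ h1 h2 ih =>
    have h3 := hd_osc p q n h1 hn
    have h4 := abs_sub_le (∑ᶠ v, p.1 v * n v) (∑ᶠ v, q.1 v * n v) (∑ᶠ v, r.1 v * n v)
    linarith

private theorem sum_vx (n : U → ℝ) (v : U) : ∑ᶠ w, (vx hK.out v : Pt K).1 w * n w = n v := by
  rw [finsum_eq_single _ v fun w hw => by rw [vx_ne hw, zero_mul], vx_self, one_mul]

theorem exists_walk (u v : U) :
    ∃ n : ℕ, Rn K n u v ∧ (n : ℝ) ≤ dist (vx hK.out u) (vx hK.out v) := by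
  classical
  obtain ⟨N, hN⟩ : ∃ N : U → ℕ, N = fun w => Nat.find (rn_exists (K := K) u w) := ⟨_, rfl⟩
  have hN1 : ∀ w, Rn K (N w) u w := fun w => by
    rw [hN]
    exact Nat.find_spec (rn_exists (K := K) u w)
  have hN2 : ∀ w m, Rn K m u w → N w ≤ m := fun w m hm => by
    rw [hN]
    exact Nat.find_min' (rn_exists (K := K) u w) hm
  have hu : N u = 0 := Nat.le_zero.1 (hN2 u 0 rfl)
  have hed : ∀ x y, Ed K x y → N y ≤ N x + 1 := fun x y h => hN2 y _ (rn_snoc (hN1 x) h)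
  have hosc : ∀ x y, Ed K x y → |(N x : ℝ) - N y| ≤ 1 := by
    intro x y h
    have h1 : (N y : ℝ) ≤ N x + 1 := by exact_mod_cast hed x y h
    have h' : Ed K y x := by
      obtain ⟨s, hs, h3, h4⟩ := h
      exact ⟨s, hs, h4, h3⟩
    have h2 : (N x : ℝ) ≤ N y + 1 := by exact_mod_cast hed y x h'
    rw [abs_le]
    constructor <;> linarith
  refine ⟨N v, hN1 v, ?_⟩
  refine le_csInf (Ch.exists hK.out _ _) ?_
  intro ℓ hℓ
  have h1 := ch_osc (fun w => (N w : ℝ)) hosc hℓ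
  rw [sum_vx, sum_vx, hu] at h1
  have h2 := neg_le_abs (((0 : ℕ) : ℝ) - N v)
  push_cast at h1 h2
  linarith

theorem dist_point_vx (p : Pt K) (v : U) (h : p.1 v ≠ 0) : dist p (vx hK.out v) ≤ 1 := by
  obtain ⟨s, hs, hs1, hs2, hs3⟩ := p.2
  have hv : v ∈ s := by
    by_contra hc
    exact h (hs2 v hc)
  have hc : Cs K p (vx hK.out v) := by
    refine ⟨s, hs, fun w hw => ⟨hs2 w hw, vx_ne ?_⟩⟩
    rintro rfl
    exact hw hv
  rw [dist_eq_hd hc]
  exact hd_le_one _ _

omit hK in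
theorem exists_pos (p : Pt K) : ∃ v, 0 < p.1 v := by
  obtain ⟨s, hs, hs1, hs2, hs3⟩ := p.2
  by_contra hc
  push Not at hc
  have h1 : ∑ v ∈ s, p.1 v ≤ 0 := Finset.sum_nonpos fun v _ => hc v
  linarith

end URW
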